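import Mathlib

/-!
# Stable images of polynomial endomorphisms need not be retracts

For every field `K` of characteristic zero and every `n ≥ 3` the endomorphism
`x ↦ x`, `y ↦ y + x z`, `z ↦ z + 2 y z + x z ^ 2` (further variables are fixed) of
`K[x, y, z, …]` is injective and its stable image is not a retract.

Idea. The map is `exp (z D)` for the locally nilpotent derivation `D = x ∂_y + 2 y ∂_z`, so it fixes
`x` and `v = y ^ 2 - x z`. On every orbit `s ↦ (x, x s, x s ^ 2 - e)` of the additive group it is
the quadratic polynomial map `s ↦ s + x s ^ 2 - e`, so an element of the stable image is constant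
on the orbits. It is therefore invariant under `y ↦ - y`. A retraction would give elements
`Y`, `Z` of the stable image with `Y ^ 2 = x Z + v`, so `Y (0, t, 0) = ± t`, which is not
invariant under `t ↦ - t`.
-/

set_option autoImplicit false

namespace Pool.Agent.Results.MP_0f9f23_al.StableImageNotRetract

open MvPolynomial

/-- The stable image `⋂_{k ≥ 1} φ ^ k (P_n)` of an endomorphism `φ` of the polynomial ring. -/
noncomputable def stableImage {K : Type*} [Field K] {n : ℕ}
    (φ : MvPolynomial (Fin n) K →ₐ[K] MvPolynomial (Fin n) K) :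
    Subalgebra K (MvPolynomial (Fin n) K) :=
  ⨅ k : ℕ, ⨅ _ : 1 ≤ k, (φ ^ k).range

/-- A subalgebra `R` of `P_n` is a retract of `P_n`: there is a homomorphism `P_n → R` which is
the identity on `R`. -/
def IsRetract {K : Type*} [Field K] {n : ℕ} (R : Subalgebra K (MvPolynomial (Fin n) K)) : Prop :=
  ∃ π : MvPolynomial (Fin n) K →ₐ[K] R, ∀ r : R, π (r : MvPolynomial (Fin n) K) = r

section

variable {K : Type*} [Field K] {n : ℕ} (a b c : Fin n)

/-- The endomorphism `x ↦ x`, `y ↦ y + x z`, `z ↦ z + 2 y z + x z ^ 2`. -/
noncomputable def phi : MvPolynomial (Fin n) K →ₐ[K] MvPolynomial (Fin n) K :=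
  aeval fun i => if i = b then X b + X a * X c else
    if i = c then X c + 2 * X b * X c + X a * X c ^ 2 else X i

/-- The point on the orbit with parameter `s`. -/
noncomputable def curve (x e : K) (r : Fin n → K) : MvPolynomial (Fin n) K →ₐ[K] Polynomial K :=
  aeval fun i => if i = a then Polynomial.C x else if i = b then Polynomial.C x * Polynomial.X else
    if i = c then Polynomial.C x * Polynomial.X ^ 2 - Polynomial.C e else Polynomial.C (r i)

/-- The quadratic map on an orbit. -/
noncomputable def quad (x e : K) : Polynomial K :=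
  Polynomial.X + (Polynomial.C x * Polynomial.X ^ 2 - Polynomial.C e)

variable {a b c}

theorem phi_b : phi a b c (X b : MvPolynomial (Fin n) K) = X b + X a * X c := by
  simp [phi]

theorem phi_c (hbc : b ≠ c) : phi a b c (X c : MvPolynomial (Fin n) K) =
    X c + 2 * X b * X c + X a * X c ^ 2 := by
  simp [phi, hbc.symm]

theorem phi_other {i : Fin n} (hb : i ≠ b) (hc : i ≠ c) :
    phi a b c (X i : MvPolynomial (Fin n) K) = X i := by
  simp [phi, hb, hc]

theorem curve_phi (hab : a ≠ b) (hac : a ≠ c) (hbc : b ≠ c) (x e : K) (r : Fin n → K)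
    (g : MvPolynomial (Fin n) K) :
    curve a b c x e r (phi a b c g) = (curve a b c x e r g).comp (quad x e) := by
  have h : (curve a b c x e r).comp (phi a b c) =
      (Polynomial.aeval (quad x e)).comp (curve a b c x e r) := by
    apply MvPolynomial.algHom_ext
    intro i
    simp only [AlgHom.comp_apply]
    by_cases hb : i = b
    · subst hb
      rw [phi_b]
      simp only [curve, quad, map_add, map_mul, aeval_X, if_true, if_neg hab.symm,
        if_neg hac.symm, if_neg hbc.symm, if_neg hbc, Polynomial.aeval_C, Polynomial.aeval_X,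
        Polynomial.algebraMap_eq]
      ring
    · by_cases hc : i = c
      · subst hc
        rw [phi_c hbc]
        simp only [curve, quad, map_add, map_mul, map_sub, map_pow, aeval_X, if_true,
          if_neg hab.symm, if_neg hac.symm, if_neg hbc.symm, if_neg hbc, Polynomial.aeval_C,
          Polynomial.aeval_X, Polynomial.algebraMap_eq, map_ofNat]
        ring
      · rw [phi_other hb hc]
        by_cases ha : i = a
        · subst ha
          simp [curve]
        · simp [curve, ha, hb, hc]
  have h2 := congrArg (fun f : MvPolynomial (Fin n) K →ₐ[K] Polynomial K => f g) h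
  simp only [AlgHom.comp_apply] at h2
  rw [h2, Polynomial.comp, Polynomial.aeval_def]
  rfl

theorem natDegree_quad {x : K} (hx : x ≠ 0) (e : K) : (quad x e).natDegree = 2 := by
  unfold quad
  compute_degree!

theorem natDegree_pow (hab : a ≠ b) (hac : a ≠ c) (hbc : b ≠ c) {x : K} (hx : x ≠ 0) (e : K)
    (r : Fin n → K) (k : ℕ) (g : MvPolynomial (Fin n) K) :
    (curve a b c x e r ((phi a b c ^ k) g)).natDegree =
      2 ^ k * (curve a b c x e r g).natDegree := by
  induction k generalizing g with
  | zero => simp
  | succ k ih =>
    rw [pow_succ', AlgHom.mul_apply, curve_phi hab hac hbc, Polynomial.natDegree_comp,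
      natDegree_quad hx, ih]
    ring

theorem natDegree_zero (hab : a ≠ b) (hac : a ≠ c) (hbc : b ≠ c) {x : K} (hx : x ≠ 0) (e : K)
    (r : Fin n → K) {g : MvPolynomial (Fin n) K}
    (hg : g ∈ stableImage (phi (K := K) a b c)) : (curve a b c x e r g).natDegree = 0 := by
  by_contra hne
  have h1 : ∀ k : ℕ, 1 ≤ k → 2 ^ k ∣ (curve a b c x e r g).natDegree := by
    intro k hk
    unfold stableImage at hg
    rw [Algebra.mem_iInf] at hg
    have h2 := hg k
    rw [Algebra.mem_iInf] at h2
    obtain ⟨g', hg'⟩ := h2 hk
    rw [← hg']
    exact ⟨_, natDegree_pow hab hac hbc hx e r k g'⟩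
  have h3 := Nat.le_of_dvd (Nat.pos_of_ne_zero hne) (h1 _ (Nat.pos_of_ne_zero hne))
  exact absurd h3 (not_le.mpr Nat.lt_two_pow_self)

theorem eval_curve (x e : K) (r : Fin n → K) (s : K) (g : MvPolynomial (Fin n) K) :
    (curve a b c x e r g).eval s = eval (fun i => if i = a then x else if i = b then x * s else
      if i = c then x * s ^ 2 - e else r i) g := by
  have h : (Polynomial.aeval s).comp (curve a b c x e r) =
      aeval (fun i => if i = a then x else if i = b then x * s else
      if i = c then x * s ^ 2 - e else r i) := by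
    apply MvPolynomial.algHom_ext
    intro i
    simp only [AlgHom.comp_apply, curve, aeval_X]
    split_ifs <;> simp
  have h2 := congrArg (fun f : MvPolynomial (Fin n) K →ₐ[K] K => f g) h
  simp only [AlgHom.comp_apply] at h2
  rw [← Polynomial.coe_aeval_eq_eval, h2, ← MvPolynomial.coe_aeval_eq_eval]
  rfl

/-- The symmetry `y ↦ - y`. -/
noncomputable def sym (b : Fin n) : MvPolynomial (Fin n) K →ₐ[K] MvPolynomial (Fin n) K :=
  aeval fun i => if i = b then - X b else X i

theorem eval_sym (p : Fin n → K) (g : MvPolynomial (Fin n) K) :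
    eval p (sym b g) = eval (fun i => if i = b then - p b else p i) g := by
  have h : (aeval p).comp (sym (K := K) b) =
      aeval (fun i => if i = b then - p b else p i) := by
    apply MvPolynomial.algHom_ext
    intro i
    simp only [AlgHom.comp_apply, sym, aeval_X]
    split_ifs <;> simp
  have h2 := congrArg (fun f : MvPolynomial (Fin n) K →ₐ[K] K => f g) h
  simp only [AlgHom.comp_apply] at h2
  rw [← MvPolynomial.coe_aeval_eq_eval, ← MvPolynomial.coe_aeval_eq_eval]
  exact h2

theorem sym_eq [CharZero K] (hab : a ≠ b) (hac : a ≠ c) (hbc : b ≠ c)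
    {g : MvPolynomial (Fin n) K} (hg : g ∈ stableImage (phi (K := K) a b c)) : sym b g = g := by
  have h1 : X a * (sym b g - g) = 0 := by
    apply MvPolynomial.funext
    intro p
    rw [map_mul, map_sub, eval_X, map_zero]
    by_cases hp : p a = 0
    · rw [hp, zero_mul]
    · have h2 := natDegree_zero hab hac hbc hp (p a * (p b / p a) ^ 2 - p c) p hg
      obtain ⟨k, hk⟩ := Polynomial.natDegree_eq_zero.mp h2
      have h3 := eval_curve (a := a) (b := b) (c := c) (p a) (p a * (p b / p a) ^ 2 - p c) p
        (p b / p a) g
      have h4 := eval_curve (a := a) (b := b) (c := c) (p a) (p a * (p b / p a) ^ 2 - p c) p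
        (- (p b / p a)) g
      rw [← hk, Polynomial.eval_C] at h3 h4
      have h5 : (fun i => if i = a then p a else if i = b then p a * (p b / p a) else
          if i = c then p a * (p b / p a) ^ 2 - (p a * (p b / p a) ^ 2 - p c) else p i) = p := by
        funext i
        by_cases h : i = a
        · rw [if_pos h, h]
        · rw [if_neg h]
          by_cases h' : i = b
          · rw [if_pos h', h']
            field_simp
          · rw [if_neg h']
            by_cases h'' : i = c
            · rw [if_pos h'', h'']
              ring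
            · rw [if_neg h'']
      have h6 : (fun i => if i = a then p a else if i = b then p a * (- (p b / p a)) else
          if i = c then p a * (- (p b / p a)) ^ 2 - (p a * (p b / p a) ^ 2 - p c) else p i) =
          fun i => if i = b then - p b else p i := by
        funext i
        by_cases h : i = a
        · rw [if_pos h, h, if_neg hab]
        · rw [if_neg h]
          by_cases h' : i = b
          · rw [if_pos h', if_pos h']
            field_simp
          · rw [if_neg h', if_neg h']
            by_cases h'' : i = c
            · rw [if_pos h'', h'']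
              ring
            · rw [if_neg h'']
      rw [h5] at h3
      rw [h6] at h4
      rw [eval_sym, ← h4, ← h3, sub_self, mul_zero]
  have h2 : (X a : MvPolynomial (Fin n) K) ≠ 0 := X_ne_zero a
  have h3 := (mul_eq_zero.mp h1).resolve_left h2
  exact sub_eq_zero.mp h3

theorem mem_of_fixed {φ : MvPolynomial (Fin n) K →ₐ[K] MvPolynomial (Fin n) K}
    {g : MvPolynomial (Fin n) K} (hg : φ g = g) : g ∈ stableImage φ := by
  unfold stableImage
  rw [Algebra.mem_iInf]
  intro k
  rw [Algebra.mem_iInf]
  intro _
  refine ⟨g, ?_⟩
  show (φ ^ k) g = g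
  induction k with
  | zero => simp
  | succ k ih =>
    by_cases hk : 1 ≤ k
    · rw [pow_succ, AlgHom.mul_apply, hg, ih hk]
    · have : k = 0 := by omega
      subst this
      rw [zero_add, pow_one, hg]

/-- Restriction to the `y`-axis. -/
noncomputable def axis (b : Fin n) : MvPolynomial (Fin n) K →ₐ[K] Polynomial K :=
  aeval fun i => if i = b then Polynomial.X else 0

theorem axis_sym (g : MvPolynomial (Fin n) K) :
    axis b (sym b g) = (axis b g).comp (- Polynomial.X) := by
  have h : (axis (K := K) b).comp (sym b) =
      (Polynomial.aeval (- Polynomial.X : Polynomial K)).comp (axis b) := by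
    apply MvPolynomial.algHom_ext
    intro i
    simp only [AlgHom.comp_apply, sym, axis, aeval_X]
    by_cases h : i = b
    · simp [h]
    · simp [h]
  have h2 := congrArg (fun f : MvPolynomial (Fin n) K →ₐ[K] Polynomial K => f g) h
  simp only [AlgHom.comp_apply] at h2
  rw [h2, Polynomial.comp, Polynomial.aeval_def]
  rfl

theorem not_retract [CharZero K] (hab : a ≠ b) (hac : a ≠ c) (hbc : b ≠ c) :
    ¬ IsRetract (stableImage (phi (K := K) a b c)) := by
  rintro ⟨π, hπ⟩
  have hx : (X a : MvPolynomial (Fin n) K) ∈ stableImage (phi (K := K) a b c) :=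
    mem_of_fixed (phi_other hab hac)
  have hv : (X b ^ 2 - X a * X c : MvPolynomial (Fin n) K) ∈
      stableImage (phi (K := K) a b c) := by
    apply mem_of_fixed
    rw [map_sub, map_pow, map_mul, phi_b, phi_c hbc, phi_other hab hac]
    ring
  have h1 := hπ ⟨_, hx⟩
  have h2 := hπ ⟨_, hv⟩
  simp only at h1 h2
  have h3 : ((π (X b) : stableImage (phi (K := K) a b c)) : MvPolynomial (Fin n) K) ^ 2 =
      X a * ((π (X c) : stableImage (phi (K := K) a b c)) : MvPolynomial (Fin n) K) +
        (X b ^ 2 - X a * X c) := by
    have h4 : (X b : MvPolynomial (Fin n) K) ^ 2 = X a * X c + (X b ^ 2 - X a * X c) := by ring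
    have h5 := congrArg (fun q => ((π q : stableImage (phi (K := K) a b c)) :
      MvPolynomial (Fin n) K)) h4
    simp only [map_pow, map_add, map_mul] at h5
    rw [h1, h2] at h5
    simpa using h5
  set Y : MvPolynomial (Fin n) K := ((π (X b) : stableImage (phi (K := K) a b c)) :
    MvPolynomial (Fin n) K) with hY
  have hYmem : Y ∈ stableImage (phi (K := K) a b c) := (π (X b)).2
  have h4 := sym_eq hab hac hbc hYmem
  have h5 : (axis b Y) ^ 2 = (Polynomial.X : Polynomial K) ^ 2 := by
    have h6 := congrArg (axis (K := K) b) h3
    rw [map_pow] at h6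
    rw [h6]
    simp [axis, hab]
  have h6 : axis b Y = (axis b Y).comp (- Polynomial.X) := by
    rw [← axis_sym, h4]
  have h7 : (Polynomial.X : Polynomial K) ≠ - Polynomial.X := by
    intro h
    have h8 := congrArg (Polynomial.eval (1 : K)) h
    simp only [Polynomial.eval_X, Polynomial.eval_neg] at h8
    have h9 : (2 : K) = 0 := by linear_combination h8
    exact two_ne_zero h9
  rcases sq_eq_sq_iff_eq_or_eq_neg.mp h5 with h | h
  · rw [h] at h6
    apply h7
    simpa using h6
  · rw [h] at h6
    apply h7
    have h8 : (- Polynomial.X : Polynomial K) = Polynomial.X := by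
      simpa using h6
    exact h8.symm

theorem phi_injective [CharZero K] (hab : a ≠ b) (hac : a ≠ c) (hbc : b ≠ c) :
    Function.Injective (phi (K := K) a b c) := by
  rw [injective_iff_map_eq_zero]
  intro g hg
  have h1 : X a * g = 0 := by
    apply MvPolynomial.funext
    intro p
    rw [map_mul, eval_X, map_zero]
    by_cases hp : p a = 0
    · rw [hp, zero_mul]
    · have h2 := curve_phi hab hac hbc (p a) (p a * (p b / p a) ^ 2 - p c) p g
      rw [hg, map_zero] at h2
      have h3 : curve a b c (p a) (p a * (p b / p a) ^ 2 - p c) p g = 0 := by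
        rcases Polynomial.comp_eq_zero_iff.mp h2.symm with h | ⟨_, h⟩
        · exact h
        · exfalso
          have h4 := natDegree_quad hp (p a * (p b / p a) ^ 2 - p c)
          rw [h, Polynomial.natDegree_C] at h4
          omega
      have h4 := eval_curve (a := a) (b := b) (c := c) (p a) (p a * (p b / p a) ^ 2 - p c) p
        (p b / p a) g
      have h5 : (fun i => if i = a then p a else if i = b then p a * (p b / p a) else
          if i = c then p a * (p b / p a) ^ 2 - (p a * (p b / p a) ^ 2 - p c) else p i) = p := by
        funext i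
        by_cases h : i = a
        · rw [if_pos h, h]
        · rw [if_neg h]
          by_cases h' : i = b
          · rw [if_pos h', h']
            field_simp
          · rw [if_neg h']
            by_cases h'' : i = c
            · rw [if_pos h'', h'']
              ring
            · rw [if_neg h'']
      rw [h3, h5, Polynomial.eval_zero] at h4
      rw [← h4, mul_zero]
  exact (mul_eq_zero.mp h1).resolve_left (X_ne_zero a)

end

/-- **Stable images need not be retracts.** Let `K` be any field of characteristic zero and let
`x = X a`, `y = X b`, `z = X c` be three different variables of `P_n = K[x_1, …, x_n]` (so that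
`n ≥ 3`). The endomorphism `φ` of `P_n` with `φ x = x`, `φ y = y + x z`,
`φ z = z + 2 y z + x z ^ 2`, which fixes all further variables, is injective, and its stable image
is not a retract of `P_n`. In particular for every `n ≥ 3` and every field `K` of characteristic
zero some endomorphism of `P_n` has a stable image which is not a retract. -/
theorem result (K : Type*) [Field K] [CharZero K] :
    (∀ (n : ℕ) (a b c : Fin n), a ≠ b → a ≠ c → b ≠ c →
      ∃ φ : MvPolynomial (Fin n) K →ₐ[K] MvPolynomial (Fin n) K,
        φ (X b) = X b + X a * X c ∧ φ (X c) = X c + 2 * X b * X c + X a * X c ^ 2 ∧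
        (∀ i : Fin n, i ≠ b → i ≠ c → φ (X i) = X i) ∧
        Function.Injective φ ∧ ¬ IsRetract (stableImage φ)) ∧
    (∀ n : ℕ, 3 ≤ n → ∃ φ : MvPolynomial (Fin n) K →ₐ[K] MvPolynomial (Fin n) K,
      ¬ IsRetract (stableImage φ)) := by
  have h : ∀ (n : ℕ) (a b c : Fin n), a ≠ b → a ≠ c → b ≠ c →
      ∃ φ : MvPolynomial (Fin n) K →ₐ[K] MvPolynomial (Fin n) K,
        φ (X b) = X b + X a * X c ∧ φ (X c) = X c + 2 * X b * X c + X a * X c ^ 2 ∧
        (∀ i : Fin n, i ≠ b → i ≠ c → φ (X i) = X i) ∧
        Function.Injective φ ∧ ¬ IsRetract (stableImage φ) := by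
    intro n a b c hab hac hbc
    exact ⟨phi a b c, phi_b, phi_c hbc, fun i hb hc => phi_other hb hc,
      phi_injective hab hac hbc, not_retract hab hac hbc⟩
  refine ⟨h, fun n hn => ?_⟩
  obtain ⟨φ, -, -, -, -, hφ⟩ := h n ⟨0, by omega⟩ ⟨1, by omega⟩ ⟨2, by omega⟩
    (by simp) (by simp) (by simp)
  exact ⟨φ, hφ⟩

end Pool.Agent.Results.MP_0f9f23_al.StableImageNotRetract
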